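import Pool.Agent.H46.SP.Clf

/-!
# Closed forms for the constant when half of the least even element divides max L
-/

set_option autoImplicit false

namespace Pool.Agent.Results.MP_d7aaae_co.ClosedForms

open Pool.Agent.H3.LC H46.CY H46.CZ Filter Topology

/-- `l` is even and all multiples `2 l, 3 l, ..., d l` of `l` are in `L`. -/
def Full (L : Finset ℕ) (l d : ℕ) : Prop := Even l ∧ ∀ r, 2 ≤ r → r ≤ d → r * l ∈ L

/-- There are no positive integers `e < l`, `a`, `b` with `a + b + 1 = d` such that the numbers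
`2 (l + e)`, `4 e`, `(a + 1) l`, `(b + 2) l`, `b l + 2 e`, `(a + 1) l + 2 e` are all in `L`. -/
def NoCross (L : Finset ℕ) (l d : ℕ) : Prop :=
  ∀ e a b : ℕ, 1 ≤ e → e < l → 1 ≤ a → 1 ≤ b → a + b + 1 = d →
    ¬ (2 * (l + e) ∈ L ∧ 4 * e ∈ L ∧ (a + 1) * l ∈ L ∧ (b + 2) * l ∈ L ∧ b * l + 2 * e ∈ L ∧
      (a + 1) * l + 2 * e ∈ L)

open Classical in
/-- the constant -/
noncomputable def const (L : Finset ℕ) (l d : ℕ) : ℝ :=
  if d = 2 then 1 / (2 * ((l : ℝ) - 1) ^ 2)
  else if Full L l d then ((d - 1).factorial : ℝ) / 2 / ((d : ℝ) * ((l : ℝ) / 2 - 1) + 1) ^ d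
  else 1 / ((d : ℝ) * ((l : ℝ) - 1)) ^ d

/-- Let `L` be a finite set of integers `≥ 3` whose least even element is `2 l` and whose maximum is
`d l`. If `d ≤ 3`, or `l = 2` and `d ≤ 5`, or `Full L l d`, or `NoCross L l d`, then
`c(L, n) / n ^ d` converges to `const L l d`. -/
theorem result (L : Finset ℕ) (l d : ℕ) (h3 : ∀ x ∈ L, 3 ≤ x) (h2 : 2 * l ∈ L)
    (hmin : ∀ x ∈ L, Even x → 2 * l ≤ x) (hk : d * l ∈ L) (hmax : ∀ x ∈ L, x ≤ d * l)
    (h : d ≤ 3 ∨ (l = 2 ∧ d ≤ 5) ∨ Full L l d ∨ NoCross L l d) :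
    Tendsto (fun n : ℕ => (cMax L n : ℝ) / (n : ℝ) ^ d) atTop (𝓝 (const L l d)) := by
  have hl : 2 ≤ l := by
    have := h3 _ h2
    omega
  have hd : 2 ≤ d := by
    by_contra hlt
    have h4 := hmax _ h2
    have h5 : d * l ≤ 1 * l := Nat.mul_le_mul_right l (by omega)
    omega
  have hlt : ∀ x ∈ L, x < (d + 1) * l := by
    intro x hx
    have h5 := hmax x hx
    have h6 : (d + 1) * l = d * l + l := by ring
    omega
  have hT := tendsto_Gam hl (by omega) hmin hlt
  have hval : Gam L d = const L l d := by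
    unfold const
    by_cases hd2 : d = 2
    · rw [if_pos hd2]
      subst hd2
      exact Gam_two hl h2 hmin hmax
    rw [if_neg hd2]
    have hd3 : 3 ≤ d := by omega
    by_cases hF : Full L l d
    · rw [if_pos hF]
      obtain ⟨⟨q, hq⟩, hr⟩ := hF
      have hlq : l = 2 * q := by omega
      subst hlq
      have e : ((2 * q : ℕ) : ℝ) / 2 = (q : ℝ) := by
        push_cast
        ring
      rw [e]
      exact H46.SP.Gam_spider (by omega) hd hmin hmax hr
    · rw [if_neg hF]
      have hN : NoCross L l d := by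
        rcases h with h | ⟨h, h'⟩ | h | h
        · have hd' : d = 3 := by omega
          subst hd'
          rcases Nat.even_or_odd l with he | ho
          · refine absurd ⟨he, fun r hr hr3 => ?_⟩ hF
            have : r = 2 ∨ r = 3 := by omega
            rcases this with rfl | rfl
            · exact h2
            · exact hk
          · exact H46.SP.noCross_three hl ho hmin hmax
        · subst h
          rcases H46.SP.full_or_noCross hd h' h2 (by rw [mul_comm]; exact hk) with h4 | h4
          · exact absurd ⟨even_two, h4⟩ hF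
          · exact h4
        · exact absurd h hF
        · exact h
      exact H46.SP.Gam_cross hl hd3 h2 hk hmin hmax hN
  rw [← hval]
  exact hT

end Pool.Agent.Results.MP_d7aaae_co.ClosedForms
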