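import Pool.Agent.H46.EF.Fnx

/-!
# For every finite set L the asymptotics of c(L, n) is given by a computable constant
-/

set_option autoImplicit false

namespace Pool.Agent.Results.MP_d7aaae_co.EveryLComputable

open Pool.Agent.H3.LC H46.CY H46.EF Filter Topology

/-- Let `L` be a finite set of integers `≥ 3` with an even element, `2 l` its least even element, `k`
its maximum and `d = ⌊k / l⌋`. Then `c(L, n) / n ^ d` converges to `Gam L d`, the supremum of the
values of the valid templates, and this limit is at least `1 / (d (l - 1)) ^ d`. For every `m ≥ 1` the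
greatest element `g` of the finite set `gSet L d (aB l d m)` (the values of the templates with at most
`aB l d m` vertices) satisfies `|Gam L d - g| ≤ 1 / m` and `|c(L, n) / n ^ d - g| ≤ 1 / m` for all
`n ≥ an l d m`; `aB` and `an` are explicit functions. -/
theorem result (L : Finset ℕ) (l k : ℕ) (h3 : ∀ x ∈ L, 3 ≤ x) (h2 : 2 * l ∈ L)
    (hmin : ∀ x ∈ L, Even x → 2 * l ≤ x) (hk : k ∈ L) (hmax : ∀ x ∈ L, x ≤ k) :
    1 / (((k / l : ℕ) : ℝ) * (l - 1)) ^ (k / l) ≤ Gam L (k / l) ∧
      Tendsto (fun n : ℕ => (cMax L n : ℝ) / (n : ℝ) ^ (k / l)) atTop (𝓝 (Gam L (k / l))) ∧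
      ∀ m : ℕ, 1 ≤ m → (gSet L (k / l) (aB l (k / l) m)).Finite ∧
        ∃ g : ℝ, IsGreatest (gSet L (k / l) (aB l (k / l) m)) g ∧ |Gam L (k / l) - g| ≤ 1 / m ∧
          ∀ n : ℕ, an l (k / l) m ≤ n → |(cMax L n : ℝ) / (n : ℝ) ^ (k / l) - g| ≤ 1 / m := by
  have hl : 2 ≤ l := by
    have := h3 _ h2
    omega
  have hd : 2 ≤ k / l := by
    rw [Nat.le_div_iff_mul_le (by omega)]
    exact hmax _ h2
  have hlt : ∀ x ∈ L, x < (k / l + 1) * l := by
    intro x hx
    have h4 : k < l * (k / l + 1) := Nat.lt_mul_div_succ k (by omega)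
    have h5 := hmax x hx
    rw [mul_comm]
    omega
  have hd1 : 1 ≤ k / l := by omega
  refine ⟨Gam_pos hl hd h2 hk (Nat.div_mul_le_self k l) hmin hlt,
    tendsto_Gam hl hd1 hmin hlt, fun m hm => ⟨gSet_finite _ _ _, GamN L (k / l) (aB l (k / l) m),
    gSet_greatest _ _ _, approx_Gam hl hd1 hmin hlt hm,
    fun n hn => approx_n hl hd1 hmin hlt hm hn⟩⟩

end Pool.Agent.Results.MP_d7aaae_co.EveryLComputable
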