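import Pool.Agent.H46.CZ.Fmx

/-!
# If half of the least even element divides max L, the constant is a finite maximum
-/

set_option autoImplicit false

namespace Pool.Agent.Results.MP_d7aaae_co.FiniteMaximum

open Pool.Agent.H3.LC H46.CY H46.CZ Filter Topology

/-- Let `L` be a finite set of integers `≥ 3` whose least even element is `2 l` and whose maximum is
`d l`. Then `c(L, n) / n ^ d` converges to the greatest value `wval l d G c w` of the weighted
templates `(G, c, w)` with at most `d ^ 2 + (d ^ 4 + 1) d ^ 2 l` vertices. -/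
theorem result (L : Finset ℕ) (l d : ℕ) (h3 : ∀ x ∈ L, 3 ≤ x) (h2 : 2 * l ∈ L)
    (hmin : ∀ x ∈ L, Even x → 2 * l ≤ x) (hk : d * l ∈ L) (hmax : ∀ x ∈ L, x ≤ d * l) :
    ∃ γ : ℝ, Tendsto (fun n : ℕ => (cMax L n : ℝ) / (n : ℝ) ^ d) atTop (𝓝 γ) ∧
      IsGreatest {r : ℝ | ∃ N ≤ d ^ 2 + (d ^ 4 + 1) * (d ^ 2 * l), ∃ (G : SimpleGraph (Fin N))
        (c : Fin N → ℕ) (w : ℕ → ℝ), (∀ v, c v ≤ N) ∧ Valid L G c ∧ Feas c w ∧
        r = wval l d G c w} γ := by
  have hl : 2 ≤ l := by
    have := h3 _ h2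
    omega
  have hd : 2 ≤ d := by
    by_contra hlt
    have h4 := hmax _ h2
    have h5 : d * l ≤ 1 * l := Nat.mul_le_mul_right l (by omega)
    omega
  have hlt : ∀ x ∈ L, x < (d + 1) * l := by
    intro x hx
    have h5 := hmax x hx
    have h6 : (d + 1) * l = d * l + l := by ring
    omega
  exact ⟨Gam L d, tendsto_Gam hl (by omega) hmin hlt, fin_max hl hd hmin hmax⟩

end Pool.Agent.Results.MP_d7aaae_co.FiniteMaximum
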