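import Pool.Agent.H46.OE.Fin
import Pool.Agent.H3.LC.Fin

/-!
# The asymptotics of c(L, n) for the sets L with at most one even element
-/

set_option autoImplicit false

namespace Pool.Agent.Results.MP_d7aaae_co.OneEven

open Pool.Agent.H3.LC H46.CY H46.OE Filter Topology

/-- half of the (largest) even element of `L`, `0` if `L` has no even element -/
def half (L : Finset ℕ) : ℕ := (L.filter Even).sup id / 2

/-- the asymptotic value of `c(L, n)` for the sets with at most one even element -/
noncomputable def asym (L : Finset ℕ) (n : ℕ) : ℝ :=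
  if half L = 0 then (n : ℝ) / (((sInf {x | x ∈ L} : ℕ) : ℝ) - 1)
  else if L.sup id < 3 * half L then (n : ℝ) ^ 2 / (2 * ((half L : ℝ) - 1) ^ 2)
  else ((n : ℝ) / (((L.sup id / half L : ℕ) : ℝ) * ((half L : ℝ) - 1))) ^ (L.sup id / half L)

/-- Let `L` be a finite nonempty set of integers `≥ 3` with at most one even element. Then
`c(L, n) = (1 + o(1)) f(n)`, where `f(n) = n / (min L - 1)` if all elements of `L` are odd,
`f(n) = n ^ 2 / (2 (l - 1) ^ 2)` if `2 l` is the even element and `max L < 3 l`, and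
`f(n) = (n / (d (l - 1))) ^ d` with `d = ⌊max L / l⌋` if `2 l` is the even element and
`max L ≥ 3 l`. -/
theorem result (L : Finset ℕ) (hL : L.Nonempty) (h3 : ∀ x ∈ L, 3 ≤ x)
    (hone : ∀ x ∈ L, ∀ y ∈ L, Even x → Even y → x = y) :
    Tendsto (fun n : ℕ => (cMax L n : ℝ) / asym L n) atTop (𝓝 1) := by
  classical
  by_cases he : ∃ x ∈ L, Even x
  · obtain ⟨x, hx, l, hl⟩ := he
    have hxl : x = 2 * l := by omega
    subst hxl
    have hev : ∀ y ∈ L, Even y → y = 2 * l := fun y hy hy2 => hone _ hy _ hx hy2 (even_two_mul l)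
    have hfil : L.filter Even = {2 * l} := by
      ext y
      simp only [Finset.mem_filter, Finset.mem_singleton]
      constructor
      · rintro ⟨h1, h2⟩
        exact hev y h1 h2
      · rintro rfl
        exact ⟨hx, even_two_mul l⟩
    have hhalf : half L = l := by
      unfold half
      rw [hfil, Finset.sup_singleton]
      simp
    have hl2 : 2 ≤ l := by
      have := h3 _ hx
      omega
    set k := L.sup id with hk
    have hmax : ∀ y ∈ L, y ≤ k := fun y hy => Finset.le_sup (f := id) hy
    have hkL : k ∈ L := by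
      obtain ⟨y, hy, hyk⟩ := Finset.exists_mem_eq_sup L hL id
      rw [hk, hyk]
      exact hy
    have hev' : ∀ y ∈ L, Even y → 2 * l ≤ y := fun y hy hy2 => (hev y hy hy2).ge
    have hl1 : (0 : ℝ) < (l : ℝ) - 1 := by
      have : (2 : ℝ) ≤ (l : ℝ) := by exact_mod_cast hl2
      linarith
    have hd : 2 ≤ k / l := by
      rw [Nat.le_div_iff_mul_le (by omega)]
      exact hmax _ hx
    have hlt : ∀ y ∈ L, y < (k / l + 1) * l := by
      intro y hy
      have h4 : k < l * (k / l + 1) := Nat.lt_mul_div_succ k (by omega)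
      have h5 := hmax y hy
      rw [mul_comm]
      omega
    have hT := tendsto_Gam hl2 (by omega) hev' hlt
    have key : ∀ γ : ℝ, 0 < γ → Gam L (k / l) = γ →
        (∀ n : ℕ, asym L n = γ * (n : ℝ) ^ (k / l)) →
        Tendsto (fun n : ℕ => (cMax L n : ℝ) / asym L n) atTop (𝓝 1) := by
      intro γ hγ h1 h2
      rw [h1] at hT
      have h4 := hT.div_const γ
      rw [div_self hγ.ne'] at h4
      refine h4.congr fun n => ?_
      rw [h2, div_div, mul_comm]
    by_cases h3l : k < 3 * l
    · have hd2 : k / l = 2 := by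
        apply le_antisymm _ hd
        rw [← Nat.lt_succ_iff, Nat.div_lt_iff_lt_mul (by omega)]
        exact h3l
      refine key (1 / (2 * ((l : ℝ) - 1) ^ 2)) (by positivity) ?_ ?_
      · rw [hd2]
        exact Gam_one_two hl2 hx hev fun y hy => lt_of_le_of_lt (hmax y hy) h3l
      · intro n
        unfold asym
        rw [hhalf, if_neg (by omega), ← hk, if_pos h3l, hd2]
        ring
    · have hd3 : 3 ≤ k / l := by
        rw [Nat.le_div_iff_mul_le (by omega)]
        omega
      have hd0 : (0 : ℝ) < ((k / l : ℕ) : ℝ) := by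
        have : 0 < k / l := by omega
        exact_mod_cast this
      refine key (1 / (((k / l : ℕ) : ℝ) * ((l : ℝ) - 1)) ^ (k / l)) (by positivity) ?_ ?_
      · exact Gam_one_three hl2 hd3 hx hev hkL (Nat.div_mul_le_self k l) hlt
      · intro n
        unfold asym
        rw [hhalf, if_neg (by omega), ← hk, if_neg h3l, div_pow, div_mul_eq_mul_div, one_mul]
  · push Not at he
    have hfil : L.filter Even = ∅ := by
      ext y
      simp only [Finset.mem_filter, Finset.notMem_empty, iff_false, not_and]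
      exact fun h => he y h
    have hhalf : half L = 0 := by
      unfold half
      rw [hfil]
      simp
    have hodd : ∀ x ∈ L, 3 ≤ x ∧ Odd x := fun x hx => ⟨h3 x hx, Nat.not_even_iff_odd.1 (he x hx)⟩
    set μ := L.min' hL with hμ
    have hμL : μ ∈ L := Finset.min'_mem L hL
    have hμ3 : 3 ≤ μ := h3 _ hμL
    have hinf : sInf {x | x ∈ L} = μ := by
      apply le_antisymm
      · exact Nat.sInf_le hμL
      · have hne : {x | x ∈ L}.Nonempty := ⟨μ, hμL⟩
        exact Finset.min'_le L _ (Nat.sInf_mem hne)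
    have hasym : ∀ n : ℕ, asym L n = (n : ℝ) / ((μ : ℝ) - 1) := by
      intro n
      unfold asym
      rw [hhalf, if_pos rfl, hinf]
    have hb0 : (0 : ℝ) < (μ : ℝ) - 1 := by
      have : (3 : ℝ) ≤ (μ : ℝ) := by exact_mod_cast hμ3
      linarith
    obtain ⟨b, hb⟩ : ∃ b : ℕ, μ = b + 1 := ⟨μ - 1, by omega⟩
    have hbr : (μ : ℝ) - 1 = (b : ℝ) := by
      rw [hb]
      push_cast
      ring
    have hb2 : 2 ≤ b := by omega
    have hbp : (0 : ℝ) < (b : ℝ) := by rw [← hbr]; exact hb0
    have hval : ∀ n : ℕ, cMax L n = (n - 1) / b := by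
      intro n
      rw [odd_case hL hodd n, ← hμ, hb, Nat.add_sub_cancel]
    -- squeeze
    have hlow : ∀ n : ℕ, 1 ≤ n → 1 - (b : ℝ) / (n : ℝ) ≤ (cMax L n : ℝ) / asym L n := by
      intro n hn
      have hn0 : (0 : ℝ) < (n : ℝ) := by exact_mod_cast hn
      rw [hasym, hbr, hval, div_div_eq_mul_div, le_div_iff₀ hn0]
      have h1 : n - 1 < b * ((n - 1) / b + 1) := Nat.lt_mul_div_succ (n - 1) (by omega)
      have h2 : n ≤ b * ((n - 1) / b + 1) := by omega
      have h4 : (n : ℝ) ≤ (b : ℝ) * ((((n - 1) / b : ℕ) : ℝ) + 1) := by exact_mod_cast h2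
      have h5 : (1 - (b : ℝ) / (n : ℝ)) * n = n - b := by
        field_simp
      rw [h5]
      nlinarith
    have hupp : ∀ n : ℕ, 1 ≤ n → (cMax L n : ℝ) / asym L n ≤ 1 := by
      intro n hn
      have hn0 : (0 : ℝ) < (n : ℝ) := by exact_mod_cast hn
      rw [hasym, hbr, hval, div_div_eq_mul_div, div_le_one hn0]
      have h1 : (n - 1) / b * b ≤ n - 1 := Nat.div_mul_le_self _ _
      have h2 : (n - 1) / b * b ≤ n := by omega
      exact_mod_cast h2
    have hlim : Tendsto (fun n : ℕ => 1 - (b : ℝ) / (n : ℝ)) atTop (𝓝 1) := by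
      have h1 := (tendsto_const_div_atTop_nhds_zero_nat (b : ℝ)).const_sub 1
      rwa [sub_zero] at h1
    refine tendsto_of_tendsto_of_tendsto_of_le_of_le' hlim tendsto_const_nhds ?_ ?_
    · filter_upwards [eventually_ge_atTop 1] with n hn using hlow n hn
    · filter_upwards [eventually_ge_atTop 1] with n hn using hupp n hn

end Pool.Agent.Results.MP_d7aaae_co.OneEven
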